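import Pool.Agent.Helper68.QC.St7

/-!
# PART M, module JCN: joint continuity and separate holomorphy of the normalised solutions
-/

set_option autoImplicit false

open MeasureTheory Set Filter Topology Complex
open scoped ContDiff ComplexConjugate ENNReal

namespace Pool.Agent.Helper14.QCM

open Pool.Agent.Helper68.QC

/-- Cauchy estimate and mean value inequality -/
theorem cau {f : ℂ → ℂ} (hf : DifferentiableOn ℂ f (Metric.ball 0 1)) {r r' k : ℝ}
    (hrr : r < r') (hr1 : r' < 1) (hk : ∀ z ∈ Metric.closedBall (0 : ℂ) r', ‖f z‖ ≤ k) {z z' : ℂ}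
    (hz : z ∈ Metric.closedBall (0 : ℂ) r) (hz' : z' ∈ Metric.closedBall (0 : ℂ) r) :
    ‖f z' - f z‖ ≤ k / (r' - r) * ‖z' - z‖ := by
  have hin : ∀ x ∈ Metric.closedBall (0 : ℂ) r, DifferentiableAt ℂ f x := by
    intro x hx
    apply hf.differentiableAt
    apply Metric.isOpen_ball.mem_nhds
    rw [mem_closedBall_zero_iff] at hx
    rw [mem_ball_zero_iff]
    linarith
  apply Convex.norm_image_sub_le_of_norm_deriv_le hin _ (convex_closedBall 0 r) hz hz'
  intro x hx
  rw [mem_closedBall_zero_iff] at hx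
  have hsub : Metric.closedBall x (r' - r) ⊆ Metric.closedBall 0 r' := by
    apply Metric.closedBall_subset_closedBall'
    rw [dist_zero_right]
    linarith
  apply Complex.norm_deriv_le_of_forall_mem_sphere_norm_le (by linarith)
  · apply DifferentiableOn.diffContOnCl
    rw [closure_ball x (by linarith : r' - r ≠ 0)]
    apply hf.mono
    apply hsub.trans
    exact Metric.closedBall_subset_ball hr1
  · intro z hz
    exact hk z (hsub (Metric.sphere_subset_closedBall hz))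

theorem pJCN : Pool.Agent.Helper68.QC.StJCN := by
  intro hHOL hLIP μ hF y
  refine ⟨?_, ?_, ?_⟩
  · rintro ⟨z₀, w₀⟩ ⟨hz₀, hw₀⟩
    rw [mem_ball_zero_iff] at hz₀ hw₀
    simp only at hz₀ hw₀
    obtain ⟨r, hr0, hr1⟩ := exists_between (max_lt hz₀ hw₀)
    obtain ⟨r', hr2, hr3⟩ := exists_between hr1
    obtain ⟨k, hk1, hk⟩ := hF.bel r' hr3
    obtain ⟨C, hC⟩ := hLIP k hk1 ‖y‖
    have hzr : ‖z₀‖ < r := lt_of_le_of_lt (le_max_left _ _) hr0
    have hwr : ‖w₀‖ < r := lt_of_le_of_lt (le_max_right _ _) hr0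
    have hk0 : 0 ≤ k := by
      have h1 := (hk z₀ (by rw [mem_closedBall_zero_iff]; linarith) w₀
        (by rw [mem_closedBall_zero_iff]; linarith)).le 0
      exact (norm_nonneg _).trans h1
    apply ContinuousAt.continuousWithinAt
    unfold ContinuousAt
    rw [tendsto_iff_norm_sub_tendsto_zero]
    have hlim : Tendsto (fun p : ℂ × ℂ => C * (k / (r' - r) * (‖p.1 - z₀‖ + ‖p.2 - w₀‖)))
        (𝓝 (z₀, w₀)) (𝓝 0) := by
      have h1 : Continuous (fun p : ℂ × ℂ => C * (k / (r' - r) * (‖p.1 - z₀‖ + ‖p.2 - w₀‖))) := by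
        fun_prop
      have h2 := h1.tendsto (z₀, w₀)
      simpa using h2
    refine squeeze_zero' (Eventually.of_forall fun p => norm_nonneg _) ?_ hlim
    have hev : ∀ᶠ p : ℂ × ℂ in 𝓝 (z₀, w₀), ‖p.1‖ < r ∧ ‖p.2‖ < r := by
      have h1 : IsOpen {p : ℂ × ℂ | ‖p.1‖ < r} :=
        isOpen_lt (f := fun p : ℂ × ℂ => ‖p.1‖) (by fun_prop) continuous_const
      have h2 : IsOpen {p : ℂ × ℂ | ‖p.2‖ < r} :=
        isOpen_lt (f := fun p : ℂ × ℂ => ‖p.2‖) (by fun_prop) continuous_const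
      exact (h1.inter h2).mem_nhds ⟨hzr, hwr⟩
    filter_upwards [hev] with p hp
    have hkk : 0 ≤ k / (r' - r) := div_nonneg hk0 (by linarith)
    have hb : ∀ z w : ℂ, ‖z‖ ≤ r' → ‖w‖ ≤ r' → Bel k (μ z w) := fun z w hz hw =>
      hk z (by rw [mem_closedBall_zero_iff]; exact hz) w (by rw [mem_closedBall_zero_iff]; exact hw)
    refine hC _ (by positivity) (μ p.1 p.2) (μ z₀ w₀) (hb _ _ (by linarith) (by linarith))
      (hb _ _ (by linarith) (by linarith)) ?_ y le_rfl
    intro x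
    have h1 : ‖μ p.1 p.2 x - μ z₀ p.2 x‖ ≤ k / (r' - r) * ‖p.1 - z₀‖ := by
      refine cau (hF.hol1 x p.2 (by rw [mem_ball_zero_iff]; linarith)) hr2 hr3 ?_
        (by rw [mem_closedBall_zero_iff]; linarith) (by rw [mem_closedBall_zero_iff]; linarith)
      intro z hz
      rw [mem_closedBall_zero_iff] at hz
      exact (hb z p.2 hz (by linarith)).le x
    have h2 : ‖μ z₀ p.2 x - μ z₀ w₀ x‖ ≤ k / (r' - r) * ‖p.2 - w₀‖ := by
      refine cau (f := fun w => μ z₀ w x) (hF.hol2 x z₀ (by rw [mem_ball_zero_iff]; linarith)) hr2 hr3 ?_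
        (by rw [mem_closedBall_zero_iff]; linarith) (by rw [mem_closedBall_zero_iff]; linarith)
      intro w hw
      rw [mem_closedBall_zero_iff] at hw
      exact (hb z₀ w (by linarith) hw).le x
    calc ‖μ p.1 p.2 x - μ z₀ w₀ x‖
        = ‖(μ p.1 p.2 x - μ z₀ p.2 x) + (μ z₀ p.2 x - μ z₀ w₀ x)‖ := by congr 1; ring
      _ ≤ ‖μ p.1 p.2 x - μ z₀ p.2 x‖ + ‖μ z₀ p.2 x - μ z₀ w₀ x‖ := norm_add_le _ _
      _ ≤ k / (r' - r) * (‖p.1 - z₀‖ + ‖p.2 - w₀‖) := by
          rw [mul_add]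
          exact add_le_add h1 h2
  · intro w hw z₀ hz₀
    rw [mem_ball_zero_iff] at hw hz₀
    obtain ⟨r, hr0, hr1⟩ := exists_between (max_lt hz₀ hw)
    obtain ⟨k, hk1, hk⟩ := hF.bel r hr1
    have hzr : ‖z₀‖ < r := lt_of_le_of_lt (le_max_left _ _) hr0
    have hwr : ‖w‖ < r := lt_of_le_of_lt (le_max_right _ _) hr0
    have h1 := hHOL k hk1 (Metric.ball 0 r) (fun t => μ t w) Metric.isOpen_ball
      (fun t ht => hk t (Metric.ball_subset_closedBall ht) w
        (by rw [mem_closedBall_zero_iff]; exact hwr.le))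
      (fun x => (hF.hol1 x w (by rw [mem_ball_zero_iff]; exact hw)).mono
        (Metric.ball_subset_ball hr1.le)) y
    exact (h1.differentiableAt (Metric.isOpen_ball.mem_nhds
      (by rw [mem_ball_zero_iff]; exact hzr))).differentiableWithinAt
  · intro z hz w₀ hw₀
    rw [mem_ball_zero_iff] at hz hw₀
    obtain ⟨r, hr0, hr1⟩ := exists_between (max_lt hz hw₀)
    obtain ⟨k, hk1, hk⟩ := hF.bel r hr1
    have hzr : ‖z‖ < r := lt_of_le_of_lt (le_max_left _ _) hr0
    have hwr : ‖w₀‖ < r := lt_of_le_of_lt (le_max_right _ _) hr0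
    have h1 := hHOL k hk1 (Metric.ball 0 r) (fun t => μ z t) Metric.isOpen_ball
      (fun t ht => hk z (by rw [mem_closedBall_zero_iff]; exact hzr.le) t
        (Metric.ball_subset_closedBall ht))
      (fun x => (hF.hol2 x z (by rw [mem_ball_zero_iff]; exact hz)).mono
        (Metric.ball_subset_ball hr1.le)) y
    exact (h1.differentiableAt (Metric.isOpen_ball.mem_nhds
      (by rw [mem_ball_zero_iff]; exact hwr))).differentiableWithinAt

end Pool.Agent.Helper14.QCM
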